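import Pool.Agent.Q296.Race.Final

/-!
# Two-coin pattern races: several local extrema

For the patterns `TH` and `TTHH` the winning probability has a local minimum, a local maximum and
a local minimum in `(0,1)`.
-/

namespace Pool.Agent.Results.MP_cbbafe_pr.ThreeLocalExtrema

open Q296.Race

theorem result :
    ∃ w₁ w₂ : List Bool, w₁ ≠ [] ∧ w₂ ≠ [] ∧
      (∃ p q : ℝ, 0 < p ∧ p < 1 ∧ 0 < q ∧ q < 1 ∧ W w₁ w₂ p ≠ W w₁ w₂ q) ∧
      ∃ a b c : ℝ, 0 < a ∧ a < b ∧ b < c ∧ c < 1 ∧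
        IsLocalMin (W w₁ w₂) a ∧ IsLocalMax (W w₁ w₂) b ∧ IsLocalMin (W w₁ w₂) c :=
  ⟨[false, true], [false, false, true, true], by decide, by decide,
    ⟨1 / 5, 1 / 2, by norm_num, by norm_num, by norm_num, by norm_num, W_half_gt.ne⟩, main⟩

end Pool.Agent.Results.MP_cbbafe_pr.ThreeLocalExtrema
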